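import Pool.Agent.Helper113.Gorin.Defs

set_option autoImplicit false

open Metric Set Topology H113G

namespace Pool.Agent.TH971.GorC

open MvPolynomial PrimeSpectrum

variable {κ : Type} [Fintype κ] {n : ℕ}

/-- evaluation at `(c, y)` -/
noncomputable def evE (c : κ → ℂ) (y : ℂ) : MvPolynomial (κ ⊕ Unit) ℂ →ₐ[ℂ] ℂ :=
  aeval (Sum.elim c (fun _ => y))

/-- evaluation at `(c, x)` -/
noncomputable def evD (c : κ → ℂ) (x : Fin n → ℂ) : MvPolynomial (κ ⊕ Fin n) ℂ →ₐ[ℂ] ℂ :=
  aeval (Sum.elim c x)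

/-- the inclusion of the coordinate ring of the target of the projection to the `i`-th coordinate -/
noncomputable def phi (i : Fin n) :
    MvPolynomial (κ ⊕ Unit) ℂ →ₐ[ℂ] MvPolynomial (κ ⊕ Fin n) ℂ :=
  aeval (Sum.elim (fun a => X (Sum.inl a)) (fun _ => X (Sum.inr i)))

omit [Fintype κ] in
lemma evD_phi (c : κ → ℂ) (x : Fin n → ℂ) (i : Fin n) (p : MvPolynomial (κ ⊕ Unit) ℂ) :
    evD c x (phi i p) = evE c (x i) p := by
  have : (evD c x).comp (phi i) = evE c (x i) := by
    ext j
    rcases j with a | u <;> simp [evD, phi, evE]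
  rw [← this]; rfl

lemma phi_fp (i : Fin n) : (phi (κ := κ) i).toRingHom.FinitePresentation := by
  have h1 : (algebraMap ℂ (MvPolynomial (κ ⊕ Fin n) ℂ)).FiniteType := by
    rw [RingHom.finiteType_algebraMap]; infer_instance
  have h2 : (phi (κ := κ) i).toRingHom.FiniteType := by
    have h3 : ((phi (κ := κ) i).toRingHom.comp
        (algebraMap ℂ (MvPolynomial (κ ⊕ Unit) ℂ))).FiniteType := by
      have : (phi (κ := κ) i).toRingHom.comp (algebraMap ℂ (MvPolynomial (κ ⊕ Unit) ℂ)) =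
          algebraMap ℂ (MvPolynomial (κ ⊕ Fin n) ℂ) := (phi (κ := κ) i).comp_algebraMap
      rw [this]; exact h1
    exact RingHom.FiniteType.of_comp_finiteType h3
  exact RingHom.FinitePresentation.of_finiteType.mp h2

theorem proj_data (U : Set (MvPolynomial (κ ⊕ Fin n) ℂ)) (hU : U.Finite)
    (Q : MvPolynomial (κ ⊕ Fin n) ℂ) (i : Fin n) :
    ∃ T : ConstructibleSetData (MvPolynomial (κ ⊕ Unit) ℂ), ∀ (c : κ → ℂ) (y : ℂ),
      (∃ C ∈ T, (∀ l, evE c y (C.g l) = 0) ∧ evE c y C.f ≠ 0) ↔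
      ∃ x : Fin n → ℂ, (∀ P ∈ U, evD c x P = 0) ∧ evD c x Q ≠ 0 ∧ x i = y := by
  classical
  set W : Set (PrimeSpectrum (MvPolynomial (κ ⊕ Fin n) ℂ)) := zeroLocus U \ zeroLocus {Q} with hW
  have hWc : IsConstructible W := by
    refine IsConstructible.sdiff ?_ ?_
    · rw [← isConstructible_compl]
      exact (isRetrocompact_zeroLocus_compl hU).isConstructible
        (isClosed_zeroLocus _).isOpen_compl
    · rw [← isConstructible_compl]
      exact (isRetrocompact_zeroLocus_compl (Set.finite_singleton _)).isConstructible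
        (isClosed_zeroLocus _).isOpen_compl
  obtain ⟨T, hT⟩ := exists_constructibleSetData_iff.mpr
    (isConstructible_comap_image (phi_fp (κ := κ) i) hWc)
  refine ⟨T, fun c y => ?_⟩
  let mE : PrimeSpectrum (MvPolynomial (κ ⊕ Unit) ℂ) := comap (evE c y).toRingHom ⊥
  have hmE : ∀ p, p ∈ mE.asIdeal ↔ evE c y p = 0 := by
    intro p
    show (evE c y).toRingHom p ∈ (⊥ : Ideal ℂ) ↔ _
    simp
  have h1 : (∃ C ∈ T, (∀ l, evE c y (C.g l) = 0) ∧ evE c y C.f ≠ 0) ↔ mE ∈ T.toSet := by
    simp only [ConstructibleSetData.toSet, BasicConstructibleSetData.toSet, Set.mem_iUnion,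
      Set.mem_sdiff, mem_zeroLocus, Set.singleton_subset_iff, SetLike.mem_coe, hmE,
      Set.range_subset_iff, exists_prop]
  rw [h1, hT]
  constructor
  · rintro ⟨P, hP, hPE⟩
    have hQ : Q ∉ P.asIdeal := by
      have := hP.2
      simpa [mem_zeroLocus] using this
    have hUP : ∀ p ∈ U, p ∈ P.asIdeal := fun p hp => hP.1 hp
    have hJ : P.asIdeal.jacobson = P.asIdeal :=
      (isJacobsonRing_iff_prime_eq.mp inferInstance) _ P.isPrime
    obtain ⟨N, hN1, hN2, hN3⟩ : ∃ N : Ideal (MvPolynomial (κ ⊕ Fin n) ℂ),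
        P.asIdeal ≤ N ∧ N.IsMaximal ∧ Q ∉ N := by
      by_contra hcon
      push Not at hcon
      apply hQ
      rw [← hJ, Ideal.jacobson, Ideal.mem_sInf]
      rintro J ⟨hJ1, hJ2⟩
      exact hcon J hJ1 hJ2
    obtain ⟨pt, hpt⟩ := MvPolynomial.isMaximal_iff_eq_vanishingIdeal_singleton.mp hN2
    have hmem : ∀ p, p ∈ N ↔ aeval pt p = 0 := by
      intro p
      rw [hpt, MvPolynomial.mem_vanishingIdeal_singleton_iff]
    have hc : ∀ a, pt (Sum.inl a) = c a := by
      intro a
      have h2 : (X (Sum.inl a) - C (c a) : MvPolynomial (κ ⊕ Unit) ℂ) ∈ mE.asIdeal := by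
        rw [hmE]; simp [evE]
      rw [← hPE] at h2
      have h3 := (hmem _).mp (hN1 h2)
      simpa [phi, sub_eq_zero] using h3
    have hy : pt (Sum.inr i) = y := by
      have h2 : (X (Sum.inr ()) - C y : MvPolynomial (κ ⊕ Unit) ℂ) ∈ mE.asIdeal := by
        rw [hmE]; simp [evE]
      rw [← hPE] at h2
      have h3 := (hmem _).mp (hN1 h2)
      simpa [phi, sub_eq_zero] using h3
    have hpt2 : pt = Sum.elim c (fun j => pt (Sum.inr j)) := by
      funext j
      rcases j with a | j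
      · simp [hc]
      · simp
    refine ⟨fun j => pt (Sum.inr j), fun p hp => ?_, ?_, hy⟩
    · have := (hmem p).mp (hN1 (hUP p hp))
      unfold evD
      rw [← hpt2]; exact this
    · unfold evD
      rw [← hpt2]
      intro h0
      exact hN3 ((hmem Q).mpr h0)
  · rintro ⟨x, hx1, hx2, hx3⟩
    have hmD : ∀ p, p ∈ (comap (evD c x).toRingHom ⊥ : PrimeSpectrum _).asIdeal ↔
        evD c x p = 0 := by
      intro p
      show (evD c x).toRingHom p ∈ (⊥ : Ideal ℂ) ↔ _
      simp
    refine ⟨comap (evD c x).toRingHom ⊥, ⟨?_, ?_⟩, ?_⟩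
    · intro p hp
      exact (hmD p).mpr (hx1 p hp)
    · intro h0
      exact hx2 ((hmD Q).mp (h0 (Set.mem_singleton _)))
    · apply PrimeSpectrum.ext
      ext p
      show phi i p ∈ (comap (evD c x).toRingHom ⊥ : PrimeSpectrum _).asIdeal ↔ p ∈ mE.asIdeal
      rw [hmD, hmE, evD_phi, hx3]


/-- specialisation to a polynomial in one variable -/
noncomputable def spe (c : κ → ℂ) : MvPolynomial (κ ⊕ Unit) ℂ →ₐ[ℂ] Polynomial ℂ :=
  aeval (Sum.elim (fun a => Polynomial.C (c a)) (fun _ => Polynomial.X))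

omit [Fintype κ] in
lemma eval_spe (c : κ → ℂ) (y : ℂ) (p : MvPolynomial (κ ⊕ Unit) ℂ) :
    (spe c p).eval y = evE c y p := by
  have : (Polynomial.aeval y).comp (spe c) = evE c y := by
    ext j
    rcases j with a | u <;> simp [spe, evE]
  rw [← this, ← Polynomial.coe_aeval_eq_eval]; rfl

omit [Fintype κ] in
lemma natDegree_spe (c : κ → ℂ) (p : MvPolynomial (κ ⊕ Unit) ℂ) :
    (spe c p).natDegree ≤ p.totalDegree := by
  have := MvPolynomial.aeval_natDegree_le p le_rfl
    (Sum.elim (fun a => Polynomial.C (c a)) (fun _ => Polynomial.X)) (n := 1) (by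
      rintro (a | u)
      · simp
      · simp)
  simpa [spe] using this

omit [Fintype κ] in
theorem piece_bound (C : BasicConstructibleSetData (MvPolynomial (κ ⊕ Unit) ℂ)) (c : κ → ℂ)
    (h : {y : ℂ | (∀ l, evE c y (C.g l) = 0) ∧ evE c y C.f ≠ 0}.Countable) :
    {y : ℂ | (∀ l, evE c y (C.g l) = 0) ∧ evE c y C.f ≠ 0}.encard ≤
      ((∑ l, (C.g l).totalDegree : ℕ) : ℕ∞) := by
  classical
  by_cases h0 : ∀ l, spe c (C.g l) = 0
  · have hg : ∀ l y, evE c y (C.g l) = 0 := by
      intro l y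
      rw [← eval_spe, h0 l]; simp
    by_cases hf : spe c C.f = 0
    · have : {y : ℂ | (∀ l, evE c y (C.g l) = 0) ∧ evE c y C.f ≠ 0} = ∅ := by
        ext y
        simp only [Set.mem_ofPred_eq, Set.mem_empty_iff_false, iff_false, not_and, not_not]
        intro _
        rw [← eval_spe, hf]; simp
      rw [this]; simp
    · exfalso
      have h1 : {y : ℂ | (∀ l, evE c y (C.g l) = 0) ∧ evE c y C.f ≠ 0}ᶜ.Finite := by
        refine ((spe c C.f).roots.toFinset.finite_toSet).subset ?_
        intro y hy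
        simp only [Set.mem_compl_iff, Set.mem_ofPred_eq, not_and, not_not] at hy
        have := hy (fun l => hg l y)
        rw [← eval_spe] at this
        simp [hf, this]
      have h2 : (Set.univ : Set ℂ).Countable := by
        rw [← Set.union_compl_self {y : ℂ | (∀ l, evE c y (C.g l) = 0) ∧ evE c y C.f ≠ 0}]
        exact h.union h1.countable
      exact not_countable_complex h2
  · push Not at h0
    obtain ⟨l, hl⟩ := h0
    have hsub : {y : ℂ | (∀ l, evE c y (C.g l) = 0) ∧ evE c y C.f ≠ 0} ⊆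
        ((spe c (C.g l)).roots.toFinset : Set ℂ) := by
      rintro y ⟨hy, -⟩
      have := hy l
      rw [← eval_spe] at this
      simp [hl, this]
    refine (Set.encard_le_encard hsub).trans ?_
    rw [Set.encard_coe_eq_coe_finsetCard]
    have h1 : (spe c (C.g l)).roots.toFinset.card ≤ ∑ l, (C.g l).totalDegree :=
      calc (spe c (C.g l)).roots.toFinset.card ≤ (spe c (C.g l)).roots.card :=
            Multiset.toFinset_card_le _
        _ ≤ (spe c (C.g l)).natDegree := Polynomial.card_roots' _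
        _ ≤ (C.g l).totalDegree := natDegree_spe c _
        _ ≤ _ := Finset.single_le_sum (f := fun l => (C.g l).totalDegree)
            (fun _ _ => Nat.zero_le _) (Finset.mem_univ l)
    exact_mod_cast h1

theorem family_bound (U : Set (MvPolynomial (κ ⊕ Fin n) ℂ)) (hU : U.Finite)
    (Q : MvPolynomial (κ ⊕ Fin n) ℂ) : ∃ B : ℕ, ∀ c : κ → ℂ,
      {x : Fin n → ℂ | (∀ P ∈ U, evD c x P = 0) ∧ evD c x Q ≠ 0}.Countable →
      {x : Fin n → ℂ | (∀ P ∈ U, evD c x P = 0) ∧ evD c x Q ≠ 0}.encard ≤ (B : ℕ∞) := by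
  classical
  choose T hT using proj_data (κ := κ) U hU Q
  let b : Fin n → ℕ := fun i => ∑ C ∈ T i, ∑ l, (C.g l).totalDegree
  refine ⟨∏ i, b i, fun c hc => ?_⟩
  set W : Set (Fin n → ℂ) := {x : Fin n → ℂ | (∀ P ∈ U, evD c x P = 0) ∧ evD c x Q ≠ 0} with hW
  have hproj : ∀ i, ((fun x : Fin n → ℂ => x i) '' W).encard ≤ (b i : ℕ∞) := by
    intro i
    have hcount : ((fun x : Fin n → ℂ => x i) '' W).Countable := hc.image _
    have hEq : (fun x : Fin n → ℂ => x i) '' W =
        ⋃ C ∈ T i, {y : ℂ | (∀ l, evE c y (C.g l) = 0) ∧ evE c y C.f ≠ 0} := by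
      ext y
      have := hT i c y
      simp only [Set.mem_iUnion, Set.mem_ofPred_eq, exists_prop]
      rw [this]
      constructor
      · rintro ⟨x, ⟨hx1, hx2⟩, rfl⟩
        exact ⟨x, hx1, hx2, rfl⟩
      · rintro ⟨x, hx1, hx2, rfl⟩
        exact ⟨x, ⟨hx1, hx2⟩, rfl⟩
    rw [hEq] at hcount ⊢
    have hpiece : ∀ C ∈ T i, {y : ℂ | (∀ l, evE c y (C.g l) = 0) ∧ evE c y C.f ≠ 0}.encard ≤
        ((∑ l, (C.g l).totalDegree : ℕ) : ℕ∞) := by
      intro C hC
      apply piece_bound
      exact hcount.mono (Set.subset_biUnion_of_mem (u := fun C => {y : ℂ |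
        (∀ l, evE c y (PrimeSpectrum.BasicConstructibleSetData.g C l) = 0) ∧ evE c y C.f ≠ 0}) hC)
    have key : ∀ s : Finset (BasicConstructibleSetData (MvPolynomial (κ ⊕ Unit) ℂ)), s ⊆ T i →
        (⋃ C ∈ s, {y : ℂ | (∀ l, evE c y (C.g l) = 0) ∧ evE c y C.f ≠ 0}).encard ≤
          ((∑ C ∈ s, ∑ l, (C.g l).totalDegree : ℕ) : ℕ∞) := by
      intro s
      induction s using Finset.induction_on with
      | empty => intro _; simp
      | insert C s hC ih =>
        intro hs
        rw [Finset.set_biUnion_insert, Finset.sum_insert hC]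
        refine (Set.encard_union_le _ _).trans ?_
        push_cast
        refine add_le_add ?_ ?_
        · have := hpiece C (hs (Finset.mem_insert_self _ _))
          push_cast at this
          exact this
        · have := ih (fun C' hC' => hs (Finset.mem_insert_of_mem hC'))
          push_cast at this
          exact this
    exact key (T i) (Finset.Subset.refl _)
  have hfin : ∀ i, ((fun x : Fin n → ℂ => x i) '' W).Finite := fun i =>
    Set.finite_of_encard_le_coe (hproj i)
  have hsub : W ⊆ (Fintype.piFinset (fun i => (hfin i).toFinset) : Set (Fin n → ℂ)) := by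
    intro x hx
    simp only [Finset.mem_coe, Fintype.mem_piFinset, Set.Finite.mem_toFinset]
    exact fun i => ⟨x, hx, rfl⟩
  refine (Set.encard_le_encard hsub).trans ?_
  rw [Set.encard_coe_eq_coe_finsetCard, Fintype.card_piFinset]
  have : ∏ i, (hfin i).toFinset.card ≤ ∏ i, b i := by
    apply Finset.prod_le_prod'
    intro i _
    have h1 := hproj i
    rw [(hfin i).encard_eq_coe_toFinset_card] at h1
    exact_mod_cast h1
  exact_mod_cast this

/-- monomial exponents with all entries at most `d` -/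
abbrev Mon (n d : ℕ) : Type :=
  ↥(Finset.Iic (Finsupp.equivFunOnFinite.symm (fun _ : Fin n => d)) : Finset (Fin n →₀ ℕ))

lemma mem_Iic {n d : ℕ} (P : MvPolynomial (Fin n) ℂ) (hP : P.totalDegree ≤ d)
    {m : Fin n →₀ ℕ} (hm : m ∈ P.support) :
    m ∈ (Finset.Iic (Finsupp.equivFunOnFinite.symm (fun _ : Fin n => d)) :
      Finset (Fin n →₀ ℕ)) := by
  rw [Finset.mem_Iic, Finsupp.le_def]
  intro i
  rw [Finsupp.coe_equivFunOnFinite_symm]
  have h1 : m.sum (fun _ e => e) ≤ P.totalDegree := MvPolynomial.le_totalDegree hm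
  have h2 : m i ≤ m.sum (fun _ e => e) := by
    by_cases hi : m i = 0
    · rw [hi]; exact Nat.zero_le _
    · exact Finset.single_le_sum (f := fun j => m j) (fun _ _ => Nat.zero_le _)
        (Finsupp.mem_support_iff.mpr hi)
  exact h2.trans (h1.trans hP)

lemma eval_eq_sum {n d : ℕ} (P : MvPolynomial (Fin n) ℂ) (hP : P.totalDegree ≤ d)
    (x : Fin n → ℂ) :
    MvPolynomial.eval x P = ∑ m : Mon n d, P.coeff m.1 * ∏ i, x i ^ (m.1 i) := by
  rw [MvPolynomial.eval_eq']
  rw [Finset.sum_coe_sort (Finset.Iic (Finsupp.equivFunOnFinite.symm (fun _ : Fin n => d)))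
    (fun m : Fin n →₀ ℕ => P.coeff m * ∏ i, x i ^ (m i))]
  apply Finset.sum_subset
  · intro m hm
    exact mem_Iic P hP hm
  · intro m _ hm
    rw [MvPolynomial.notMem_support_iff.mp hm]; simp

/-- universal polynomial with row of coefficients `j` -/
noncomputable def univPoly (n d : ℕ) (j : Option (Mon n d)) :
    MvPolynomial ((Option (Mon n d) × Mon n d) ⊕ Fin n) ℂ :=
  ∑ m : Mon n d, X (Sum.inl (j, m)) * ∏ i, X (Sum.inr i) ^ (m.1 i)

lemma evD_univPoly {n d : ℕ} (c : Option (Mon n d) × Mon n d → ℂ) (x : Fin n → ℂ)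
    (j : Option (Mon n d)) :
    evD c x (univPoly n d j) = ∑ m : Mon n d, c (j, m) * ∏ i, x i ^ (m.1 i) := by
  simp [evD, univPoly]

/-- every subspace of `K^ι` is the kernel of a square matrix -/
lemma exists_matrix {ι : Type} [Fintype ι] [DecidableEq ι] (N : Submodule ℂ (ι → ℂ)) :
    ∃ A : ι → ι → ℂ, ∀ v, v ∈ N ↔ ∀ j, ∑ m, A j m * v m = 0 := by
  obtain ⟨N', hN'⟩ := N.exists_isCompl
  let f : (ι → ℂ) →ₗ[ℂ] (ι → ℂ) := N'.subtype ∘ₗ N'.projectionOnto N hN'.symm
  refine ⟨fun j m => LinearMap.toMatrix' f j m, fun v => ?_⟩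
  have h1 : v ∈ N ↔ f v = 0 := by
    have : LinearMap.ker f = N := by
      rw [LinearMap.ker_comp_of_ker_eq_bot _ (Submodule.ker_subtype _),
        Submodule.ker_projectionOnto]
    rw [← LinearMap.mem_ker, this]
  have h2 : f v = (LinearMap.toMatrix' f).mulVec v := by
    rw [← Matrix.toLin'_apply, Matrix.toLin'_toMatrix']
  rw [h1, h2, _root_.funext_iff]
  rfl

end Pool.Agent.TH971.GorC

namespace Pool.Agent.TH971.GorC



/-- Job C: uniform bound for countable basic constructible sets. -/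
theorem uniform_bound (n d : ℕ) : ∃ B : ℕ, ∀ (S : Set (MvPolynomial (Fin n) ℂ))
    (q : MvPolynomial (Fin n) ℂ), (∀ P ∈ S, P.totalDegree ≤ d) → q.totalDegree ≤ d →
    {x : Fin n → ℂ | (∀ P ∈ S, MvPolynomial.eval x P = 0) ∧
      MvPolynomial.eval x q ≠ 0}.Countable →
    {x : Fin n → ℂ | (∀ P ∈ S, MvPolynomial.eval x P = 0) ∧
      MvPolynomial.eval x q ≠ 0}.encard ≤ (B : ℕ∞) := by
  classical
  obtain ⟨B, hB⟩ := family_bound (κ := Option (Mon n d) × Mon n d) (n := n)
    (Set.range (fun j : Mon n d => univPoly n d (some j))) (Set.finite_range _)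
    (univPoly n d none)
  refine ⟨B, fun S q hS hq hcount => ?_⟩
  let N : Submodule ℂ (Mon n d → ℂ) :=
    ⨅ P : S, LinearMap.ker (∑ m : Mon n d, (P.1.coeff m.1) • (LinearMap.proj m :
      (Mon n d → ℂ) →ₗ[ℂ] ℂ))
  obtain ⟨A, hA⟩ := exists_matrix N
  let c : Option (Mon n d) × Mon n d → ℂ := fun p =>
    match p with
    | (some j, m) => A j m
    | (none, m) => q.coeff m.1
  have hset : {x : Fin n → ℂ | (∀ P ∈ S, MvPolynomial.eval x P = 0) ∧
      MvPolynomial.eval x q ≠ 0} = {x : Fin n → ℂ | (∀ P ∈ Set.range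
        (fun j : Mon n d => univPoly n d (some j)), evD c x P = 0) ∧
        evD c x (univPoly n d none) ≠ 0} := by
    ext x
    have hq' : evD c x (univPoly n d none) = MvPolynomial.eval x q := by
      rw [evD_univPoly, eval_eq_sum q hq x]
    have hN : (fun m : Mon n d => ∏ i, x i ^ (m.1 i)) ∈ N ↔
        ∀ P ∈ S, MvPolynomial.eval x P = 0 := by
      simp only [N, Submodule.mem_iInf, LinearMap.mem_ker, LinearMap.sum_apply,
        LinearMap.smul_apply, LinearMap.proj_apply, smul_eq_mul, Subtype.forall]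
      refine forall₂_congr fun P hP => ?_
      rw [eval_eq_sum P (hS P hP) x]
    simp only [Set.mem_ofPred_eq, Set.forall_mem_range]
    rw [hq', ← hN, hA]
    simp only [evD_univPoly]
    rfl
  rw [hset] at hcount ⊢
  exact hB c hcount

end Pool.Agent.TH971.GorC
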