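import Pool.Agent.TH281.PC.Op

/-!
# Job 164 (Parini O): the radial vector field `f(|S z|) z / |z|`
-/

open MeasureTheory Set Metric Filter Topology
open scoped InnerProductSpace
set_option linter.unusedVariables false
namespace Pool.Agent.TH281.PC
variable {d : ℕ}

/-- the radial field `z ↦ f(|S z|) z / |z|` -/
noncomputable def radF (p ε : ℝ) (f : ℝ → ℝ) (z : V d) : V d :=
  (f ‖opS p ε z‖ / ‖z‖) • z

/-- derivative of the radial field -/
noncomputable def radD (p ε : ℝ) (f f' : ℝ → ℝ) (z : V d) : V d →L[ℝ] V d :=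
  f' ‖opS p ε z‖ • opDS p ε z +
    ((f ‖opS p ε z‖ - ‖opS p ε z‖ * f' ‖opS p ε z‖) / ‖z‖) •
      (ContinuousLinearMap.id ℝ (V d) - (‖z‖ ^ 2)⁻¹ • (innerSL ℝ z).smulRight z)

theorem opS_zero' (p ε : ℝ) : opS p ε (0 : V d) = 0 := by
  simp [opS]

theorem norm_opS_pos {p ε : ℝ} {z : V d} (hz : z ≠ 0) : 0 < ‖opS p ε z‖ := by
  rw [norm_opS]
  have h1 : 0 < ‖z‖ := norm_pos_iff.2 hz
  have h2 : 0 < ε ^ 2 + ‖z‖ ^ 2 := by positivity
  exact mul_pos h1 (Real.rpow_pos_of_pos h2 _)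

theorem hasFDerivAt_norm' {z : V d} (hz : z ≠ 0) :
    HasFDerivAt (fun z : V d => ‖z‖) (‖z‖⁻¹ • innerSL ℝ z) z := by
  have h1 := (hasStrictFDerivAt_norm_sq z).hasFDerivAt
  have hn : 0 < ‖z‖ := norm_pos_iff.2 hz
  have h2 := h1.sqrt (by positivity)
  have e : (fun x : V d => √(‖x‖ ^ 2)) = fun x => ‖x‖ := by
    funext x
    exact Real.sqrt_sq (norm_nonneg x)
  rw [e] at h2
  refine h2.congr_fderiv ?_
  rw [Real.sqrt_sq hn.le]
  ext1 h
  simp only [smul_apply, innerSL_apply_apply, smul_eq_mul]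
  rw [two_smul]
  field_simp
  ring

theorem hasFDerivAt_radF {p ε : ℝ} (hp : 1 < p) (hε : 0 < ε) {f f' : ℝ → ℝ} (h0 : f 0 = 0)
    (hf : ∀ a, 0 ≤ a → HasDerivAt f (f' a) a) (z : V d) :
    HasFDerivAt (radF p ε f) (radD p ε f f' z) z := by
  rcases eq_or_ne z 0 with rfl | hz
  · -- at the origin
    have hS := hasFDerivAt_opS (p := p) hε (0 : V d)
    have hΦ : HasFDerivAt (fun y : V d => (f ‖y‖ / ‖y‖) • y)
        (f' 0 • ContinuousLinearMap.id ℝ (V d)) (opS p ε (0 : V d)) := by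
      rw [opS_zero']
      rw [hasFDerivAt_iff_isLittleO_nhds_zero]
      have h1 := (hasDerivAt_iff_isLittleO_nhds_zero.1 (hf 0 le_rfl))
      rw [Asymptotics.isLittleO_iff] at h1 ⊢
      intro c hc
      have h2 := h1 hc
      have h3 : Tendsto (fun y : V d => ‖y‖) (𝓝 0) (𝓝 0) := by
        have := (continuous_norm (E := V d)).tendsto 0
        simpa using this
      filter_upwards [h3.eventually h2] with y hy
      rcases eq_or_ne y 0 with rfl | hy0
      · simp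
      have hn : 0 < ‖y‖ := norm_pos_iff.2 hy0
      simp only [zero_add, h0, sub_zero, smul_eq_mul, Real.norm_eq_abs, abs_norm] at hy
      simp only [zero_add, norm_zero, smul_zero, sub_zero, smul_apply,
        ContinuousLinearMap.id_apply, ← sub_smul, norm_smul, Real.norm_eq_abs]
      have e : (f ‖y‖ / ‖y‖ - f' 0) = (f ‖y‖ - ‖y‖ * f' 0) / ‖y‖ := by
        field_simp
      rw [e, abs_div, abs_of_pos hn, div_mul_cancel₀ _ hn.ne']
      exact hy
    have hc := HasFDerivAt.comp (0 : V d) hΦ hS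
    have hF : radF p ε f = (fun y : V d => (f ‖y‖ / ‖y‖) • y) ∘ (opS p ε) := by
      funext y
      rcases eq_or_ne y 0 with rfl | hy0
      · simp [radF, opS_zero']
      simp only [radF, Function.comp_apply]
      have hn : 0 < ‖y‖ := norm_pos_iff.2 hy0
      have hα : 0 < (ε ^ 2 + ‖y‖ ^ 2) ^ ((p - 2) / 2) := Real.rpow_pos_of_pos (by positivity) _
      rw [norm_opS]
      conv_rhs => rw [opS, smul_smul]
      congr 1
      field_simp
    rw [hF]
    refine hc.congr_fderiv ?_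
    ext1 h
    simp [radD, opS_zero', h0]
  · have hn : 0 < ‖z‖ := norm_pos_iff.2 hz
    have hpos : 0 < ε ^ 2 + ‖z‖ ^ 2 := by positivity
    -- derivative of `‖S z‖`
    have h1 : HasFDerivAt (fun ξ : V d => ε ^ 2 + ‖ξ‖ ^ 2) ((2 : ℝ) • innerSL ℝ z) z := by
      have h0 := (hasStrictFDerivAt_norm_sq z).hasFDerivAt.const_add (ε ^ 2)
      refine h0.congr_fderiv ?_
      ext1 e
      simp [two_smul]
    have h2 := h1.rpow_const (p := (p - 2) / 2) (Or.inl hpos.ne')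
    have h3 := (hasFDerivAt_norm' hz).mul h2
    have e0 : (fun ξ : V d => ‖opS p ε ξ‖) =
        fun ξ => ‖ξ‖ * (ε ^ 2 + ‖ξ‖ ^ 2) ^ ((p - 2) / 2) := by
      funext ξ
      exact norm_opS p ε ξ
    have hs := h3
    have e1 : (p - 2) / 2 - 1 = (p - 4) / 2 := by ring
    rw [e1] at hs
    have h4' := (hf (‖z‖ * (ε ^ 2 + ‖z‖ ^ 2) ^ ((p - 2) / 2)) (by positivity)).comp_hasFDerivAt z hs
    have h5 := h4'.mul ((hasDerivAt_inv hn.ne').comp_hasFDerivAt z (hasFDerivAt_norm' hz))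
    have h6 := h5.smul (hasFDerivAt_id z)
    have e : radF p ε f = (fun y : V d =>
        ((f ∘ fun ξ : V d => ‖ξ‖ * (ε ^ 2 + ‖ξ‖ ^ 2) ^ ((p - 2) / 2)) y *
          ((fun t : ℝ => t⁻¹) ∘ fun z : V d => ‖z‖) y) • id y) := by
      funext y
      simp [radF, div_eq_mul_inv, norm_opS]
    rw [e]
    refine h6.congr_fderiv ?_
    ext1 h
    simp only [radD, opDS, add_apply, smul_apply, sub_apply,
      ContinuousLinearMap.smulRight_apply, ContinuousLinearMap.id_apply, innerSL_apply_apply, id,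
      smul_eq_mul, Function.comp_apply, norm_opS]
    set α := (ε ^ 2 + ‖z‖ ^ 2) ^ ((p - 2) / 2)
    set β := (ε ^ 2 + ‖z‖ ^ 2) ^ ((p - 4) / 2)
    set q := ⟪z, h⟫_ℝ
    simp only [Pi.mul_apply, Function.comp_apply]
    change (f (‖z‖ * α) * ‖z‖⁻¹) • h +
      (f (‖z‖ * α) * (-(‖z‖ ^ 2)⁻¹ * (‖z‖⁻¹ * q)) +
          ‖z‖⁻¹ * (f' (‖z‖ * α) * (‖z‖ * ((p - 2) / 2 * β * (2 * q)) + α * (‖z‖⁻¹ * q)))) • z = _
    match_scalars
    · field_simp
      ring
    · field_simp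
      ring

theorem norm_radF {p ε : ℝ} {f : ℝ → ℝ} (h0 : f 0 = 0) (hpos : ∀ a, 0 < a → 0 < f a) (z : V d) :
    ‖radF p ε f z‖ = f ‖opS p ε z‖ := by
  rcases eq_or_ne z 0 with rfl | hz
  · simp [radF, opS_zero', h0]
  · have hn : 0 < ‖z‖ := norm_pos_iff.2 hz
    have h1 := hpos _ (norm_opS_pos (p := p) (ε := ε) hz)
    rw [radF, norm_smul, Real.norm_eq_abs, abs_of_pos (by positivity), div_mul_cancel₀ _ hn.ne']

theorem continuous_opS {p ε : ℝ} (hε : 0 < ε) : Continuous (opS p ε : V d → V d) :=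
  continuous_iff_continuousAt.2 fun z => (hasFDerivAt_opS hε z).continuousAt

theorem continuous_opDS {p ε : ℝ} (hε : 0 < ε) : Continuous (opDS p ε : V d → _) := by
  have hpos : ∀ ξ : V d, ε ^ 2 + ‖ξ‖ ^ 2 ≠ 0 := fun ξ => by positivity
  have h1 : Continuous fun ξ : V d => (ε ^ 2 + ‖ξ‖ ^ 2) ^ ((p - 2) / 2) :=
    Continuous.rpow_const (by fun_prop) fun ξ => Or.inl (hpos ξ)
  have h2 : Continuous fun ξ : V d => (p - 2) * (ε ^ 2 + ‖ξ‖ ^ 2) ^ ((p - 4) / 2) :=
    Continuous.mul continuous_const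
      (Continuous.rpow_const (by fun_prop) fun ξ => Or.inl (hpos ξ))
  rw [continuous_clm_apply]
  intro H
  simp only [opDS, add_apply, smul_apply, ContinuousLinearMap.smulRight_apply,
    ContinuousLinearMap.id_apply, innerSL_apply_apply]
  exact (h1.smul continuous_const).add (h2.smul (by fun_prop))

theorem norm_proj_le (z : V d) :
    ‖(ContinuousLinearMap.id ℝ (V d) - (‖z‖ ^ 2)⁻¹ • (innerSL ℝ z).smulRight z)‖ ≤ 2 := by
  refine ContinuousLinearMap.opNorm_le_bound _ (by norm_num) fun h => ?_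
  simp only [sub_apply, smul_apply, ContinuousLinearMap.smulRight_apply,
    ContinuousLinearMap.id_apply, innerSL_apply_apply]
  have h1 : ‖(‖z‖ ^ 2)⁻¹ • ⟪z, h⟫_ℝ • z‖ ≤ ‖h‖ := by
    rcases eq_or_ne z 0 with rfl | hz
    · simp
    · have hn : 0 < ‖z‖ := norm_pos_iff.2 hz
      rw [norm_smul, norm_smul, norm_inv, norm_pow, norm_norm]
      calc (‖z‖ ^ 2)⁻¹ * (‖⟪z, h⟫_ℝ‖ * ‖z‖) ≤ (‖z‖ ^ 2)⁻¹ * ((‖z‖ * ‖h‖) * ‖z‖) := by
            gcongr
            exact norm_inner_le_norm z h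
        _ = ‖h‖ := by field_simp
  calc ‖h - (‖z‖ ^ 2)⁻¹ • ⟪z, h⟫_ℝ • z‖ ≤ ‖h‖ + ‖(‖z‖ ^ 2)⁻¹ • ⟪z, h⟫_ℝ • z‖ := norm_sub_le _ _
    _ ≤ 2 * ‖h‖ := by linarith

theorem lipschitz_radF {p ε : ℝ} (hp : 1 < p) (hε : 0 < ε) {f f' : ℝ → ℝ} (h0 : f 0 = 0)
    (hpos : ∀ a, 0 < a → 0 < f a) (hf : ∀ a, 0 ≤ a → HasDerivAt f (f' a) a)
    (hf' : ContinuousOn f' (Ici 0)) (R : ℝ) :
    ∃ L : NNReal, LipschitzOnWith L (radF p ε f) (closedBall (0 : V d) R) := by
  have hcpt : IsCompact (closedBall (0 : V d) R) := isCompact_closedBall _ _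
  obtain ⟨A, hA⟩ := hcpt.exists_bound_of_continuousOn (continuous_opS (p := p) hε).continuousOn
  obtain ⟨B, hB⟩ := hcpt.exists_bound_of_continuousOn (continuous_opDS (p := p) hε).continuousOn
  have hα : Continuous fun ξ : V d => (ε ^ 2 + ‖ξ‖ ^ 2) ^ ((p - 2) / 2) :=
    Continuous.rpow_const (by fun_prop) fun ξ => Or.inl (by positivity)
  obtain ⟨C, hC⟩ := hcpt.exists_bound_of_continuousOn hα.continuousOn
  obtain ⟨K, hK⟩ := (isCompact_Icc (a := (0 : ℝ)) (b := A)).exists_bound_of_continuousOn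
    (hf'.mono (fun x hx => hx.1))
  -- f is K-Lipschitz at 0
  have hfK : ∀ a ∈ Icc (0 : ℝ) A, |f a| ≤ K * a := by
    intro a ha
    have h1 := (convex_Icc (0 : ℝ) A).norm_image_sub_le_of_norm_hasDerivWithin_le
      (f := f) (f' := f') (C := K) (x := 0) (y := a)
      (fun x hx => (hf x hx.1).hasDerivWithinAt) (fun x hx => hK x hx)
      ⟨le_rfl, ha.1.trans ha.2⟩ ha
    rw [h0, sub_zero, sub_zero, Real.norm_eq_abs, Real.norm_eq_abs, abs_of_nonneg ha.1] at h1
    exact h1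
  refine ⟨(K * B + (2 * K * C) * 2).toNNReal, ?_⟩
  have hkey : ∀ z ∈ closedBall (0 : V d) R, ‖radD p ε f f' z‖ ≤ K * B + (2 * K * C) * 2 := by
    intro z hz
    set s := ‖opS p ε z‖ with hs
    have hsA : s ∈ Icc (0 : ℝ) A := ⟨norm_nonneg _, hA z hz⟩
    have hK' : |f' s| ≤ K := hK s hsA
    have hK0 : 0 ≤ K := (abs_nonneg _).trans hK'
    have hB' : ‖opDS p ε z‖ ≤ B := hB z hz
    have hC' := hC z hz
    have hC0 : 0 ≤ C := (norm_nonneg _).trans hC'
    have h1 : ‖f' s • opDS p ε z‖ ≤ K * B := by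
      rw [norm_smul, Real.norm_eq_abs]
      gcongr
    have h2 : |(f s - s * f' s) / ‖z‖| ≤ 2 * K * C := by
      rcases eq_or_ne z 0 with h | h
      · rw [h, norm_zero, div_zero, abs_zero]
        positivity
      · have hn : 0 < ‖z‖ := norm_pos_iff.2 h
        rw [abs_div, abs_norm, div_le_iff₀ hn]
        have h3 : s = ‖z‖ * (ε ^ 2 + ‖z‖ ^ 2) ^ ((p - 2) / 2) := norm_opS p ε z
        have h4 : (ε ^ 2 + ‖z‖ ^ 2) ^ ((p - 2) / 2) ≤ C := (le_abs_self _).trans hC'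
        have h5 : s ≤ ‖z‖ * C := by rw [h3]; gcongr
        calc |f s - s * f' s| ≤ |f s| + |s * f' s| := abs_sub _ _
          _ ≤ K * s + s * K := by
              rw [abs_mul, abs_of_nonneg hsA.1]
              have := hfK s hsA
              have h6 : s * |f' s| ≤ s * K := mul_le_mul_of_nonneg_left hK' hsA.1
              linarith
          _ = 2 * K * s := by ring
          _ ≤ 2 * K * (‖z‖ * C) := by gcongr
          _ = 2 * K * C * ‖z‖ := by ring
    have h3 : ‖((f s - s * f' s) / ‖z‖) •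
        (ContinuousLinearMap.id ℝ (V d) - (‖z‖ ^ 2)⁻¹ • (innerSL ℝ z).smulRight z)‖ ≤
        (2 * K * C) * 2 := by
      rw [norm_smul, Real.norm_eq_abs]
      gcongr
      exact norm_proj_le z
    calc ‖radD p ε f f' z‖ ≤ _ := norm_add_le _ _
      _ ≤ _ := add_le_add h1 h3
  refine (convex_closedBall (0 : V d) R).lipschitzOnWith_of_nnnorm_hasFDerivWithin_le
    (f' := radD p ε f f') (fun z hz => (hasFDerivAt_radF hp hε h0 hf z).hasFDerivWithinAt) ?_
  intro z hz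
  rw [← NNReal.coe_le_coe, coe_nnnorm]
  exact (hkey z hz).trans (Real.le_coe_toNNReal _)

/-- trace formula -/
theorem trL_radD {p ε : ℝ} {f f' : ℝ → ℝ} (z : V d) (D : V d →L[ℝ] V d) :
    trL d ((radD p ε f f' z).comp D) = f' ‖opS p ε z‖ * opA p ε z D +
      ((f ‖opS p ε z‖ - ‖opS p ε z‖ * f' ‖opS p ε z‖) / ‖z‖) *
        (trL d D - (‖z‖ ^ 2)⁻¹ * ⟪D z, z⟫_ℝ) := by
  have key : trL d (((innerSL ℝ z).smulRight z).comp D) = ⟪D z, z⟫_ℝ := by
    have B := stdOrthonormalBasis ℝ (V d)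
    rw [trL_eq_sum B]
    have h := B.sum_inner_mul_inner (ContinuousLinearMap.adjoint D z) z
    simp only [ContinuousLinearMap.adjoint_inner_left] at h
    rw [real_inner_comm z (D z), ← h]
    refine Finset.sum_congr rfl fun i _ => ?_
    simp only [ContinuousLinearMap.comp_apply, ContinuousLinearMap.smulRight_apply,
      innerSL_apply_apply, inner_smul_left, conj_trivial]
    rw [real_inner_comm z (B i)]
  rw [radD, ContinuousLinearMap.add_comp, ContinuousLinearMap.smul_comp,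
    ContinuousLinearMap.smul_comp, ContinuousLinearMap.sub_comp, ContinuousLinearMap.smul_comp,
    ContinuousLinearMap.id_comp, map_add, map_smul, map_smul, map_sub, map_smul, trL_comp_opDS,
    key]
  simp only [smul_eq_mul]

end Pool.Agent.TH281.PC
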