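import Pool.Agent.TH971.N4W2.Loc2

set_option autoImplicit false

/-! The bounds for the multipliers with the weight `w2`. -/

namespace Pool.Agent.TH971.N4_W2

open Finset Filter Topology MeasureTheory Complex MonoidAlgebra
open Pool.Agent.W184.NZ Pool.Agent.TH806 Pool.Agent.TH806.N4

noncomputable section

lemma lam2_prod {I : ℕ → Finset ℕ} {f : ℕ → DA} (J : ℕ)
    (hd : ∀ i j, i < j → Disjoint (I i) (I j)) (hf : ∀ i, f i ∈ SA (MI (I i))) :
    lam w2 (∏ i ∈ range J, f i) = ∏ i ∈ range J, lam w2 (f i) := by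
  induction J with
  | zero => rw [range_zero, prod_empty, prod_empty, lam2_one]
  | succ J ih =>
    rw [prod_range_succ, prod_range_succ, lam2_mul (disj_union J hd) (prod_mem J fun i _ => hf i) (hf J), ih]

theorem t_W2 : P_W2 := by
  intro c hc
  obtain ⟨R0, hR0⟩ := Rk_ex c
  have hB := Bd2_pos c
  refine ⟨4 * c + 4 * Bd2 c, by positivity, R0, hR0.1, ?_⟩
  intro J Rs I b R a h hRs hR ha
  have hRi : ∀ i, Rk c (R i) := fun i => Rk_mono hR0 (by have := hR i; omega)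
  have hfE : ∀ i, gE (20 * R i) a (R i) (I i) ∈ SA (MI (I i)) := fun i =>
    gE_mem (fun p hp => (h.pr i p hp).1) _ _ _
  have hpr : ∀ i, ∀ p ∈ I i, p.Prime ∧ 144 ≤ p := fun i p hp => ⟨(h.pr i p hp).1, (h.pr i p hp).2.1⟩
  have hsx := sum_exp_le J Rs hR
  have hx0 : 0 < Real.exp (-(Rs:ℝ)) := Real.exp_pos _
  have a0 := abs_nonneg a
  have hup : ∑ i ∈ range J, (EU a (I i) + Bd2 c * Real.exp (-(R i:ℝ))) ≤
      (4 * a + a ^ 2) * (∑ i ∈ range J, vI (I i)) + (4 * c + 4 * Bd2 c) * (|a| + Real.exp (-(Rs:ℝ))) := by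
    have e1 : ∑ i ∈ range J, (EU a (I i) + Bd2 c * Real.exp (-(R i:ℝ))) =
        (4 * a + a ^ 2) * (∑ i ∈ range J, vI (I i)) + 3 * |a| * (∑ i ∈ range J, uI (I i)) +
          Bd2 c * ∑ i ∈ range J, Real.exp (-(R i:ℝ)) := by
      unfold EU
      rw [sum_add_distrib, sum_add_distrib, ← mul_sum, ← mul_sum, ← mul_sum]
    rw [e1]
    have h1 := mul_le_mul_of_nonneg_left h.U (by positivity : 0 ≤ 3 * |a|)
    have h2 := mul_le_mul_of_nonneg_left hsx hB.le
    have h3 : 0 ≤ c * Real.exp (-(Rs:ℝ)) := by positivity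
    have h4 : 0 ≤ Bd2 c * |a| := by positivity
    have h5 : 0 ≤ c * |a| := by positivity
    have h6 : 0 ≤ Bd2 c * Real.exp (-(Rs:ℝ)) := by positivity
    nlinarith
  refine ⟨⟨?_, ?_⟩, fun lm l0 l1 => ⟨?_, ?_⟩⟩
  · unfold GP
    rw [lam2_prod J h.dj hfE]
    refine prod_nonneg fun i hi => ?_
    have hi' := mem_range.mp hi
    exact (gE_up2 (hpr i) (h.v i hi') (h.u hi') (hRi i).1 ha).1
  · unfold GP
    rw [lam2_prod J h.dj hfE]
    have h1 : ∀ i ∈ range J, 0 ≤ lam w2 (gE (20 * R i) a (R i) (I i)) := fun i hi =>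
      (gE_up2 (hpr i) (h.v i (mem_range.mp hi)) (h.u (mem_range.mp hi)) (hRi i).1 ha).1
    have h2 : ∀ i ∈ range J, lam w2 (gE (20 * R i) a (R i) (I i)) ≤
        Real.exp (EU a (I i) + Bd2 c * Real.exp (-(R i:ℝ))) := fun i hi =>
      (gE_up2 (hpr i) (h.v i (mem_range.mp hi)) (h.u (mem_range.mp hi)) (hRi i).1 ha).2
    refine (prod_le_prod h1 h2).trans ?_
    rw [← Real.exp_sum]
    exact Real.exp_le_exp.mpr hup
  · have hf : ∀ i, gl (lm i) (R i) a (I i) ∈ SA (MI (I i)) := fun i =>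
      gl_mem (fun p hp => (h.pr i p hp).1) _ _ _
    unfold GQ
    rw [lam2_prod J h.dj hf]
    have h2 : ∀ i ∈ range J, Real.exp ((4 * a + a ^ 2) * vI (I i) - 2 * |a| * uI (I i) -
        2 * Bd2 c * Real.exp (-(R i:ℝ))) ≤ lam w2 (gl (lm i) (R i) a (I i)) := fun i hi =>
      gl_low2 hc (hpr i) (h.v i (mem_range.mp hi)) (h.u (mem_range.mp hi)) (hRi i) ha (l0 i)
    refine le_trans ?_ (prod_le_prod (fun i _ => (Real.exp_pos _).le) h2)
    rw [← Real.exp_sum, sum_sub_distrib, sum_sub_distrib, ← mul_sum, ← mul_sum, ← mul_sum]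
    refine Real.exp_le_exp.mpr ?_
    have h1 := mul_le_mul_of_nonneg_left h.U (by positivity : 0 ≤ 2 * |a|)
    have h2 := mul_le_mul_of_nonneg_left hsx (by positivity : 0 ≤ 2 * Bd2 c)
    have h3 : 0 ≤ c * Real.exp (-(Rs:ℝ)) := by positivity
    have h4 : 0 ≤ Bd2 c * |a| := by positivity
    have h5 : 0 ≤ c * |a| := by positivity
    have h6 : 0 ≤ Bd2 c * Real.exp (-(Rs:ℝ)) := by positivity
    nlinarith
  · have hf : ∀ i, gl (lm i) (R i) a (I i) ∈ SA (MI (I i)) := fun i =>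
      gl_mem (fun p hp => (h.pr i p hp).1) _ _ _
    unfold GQ
    rw [lam2_prod J h.dj hf]
    have h1 : ∀ i ∈ range J, 0 ≤ lam w2 (gl (lm i) (R i) a (I i)) := fun i hi =>
      le_trans (Real.exp_pos _).le
        (gl_low2 hc (hpr i) (h.v i (mem_range.mp hi)) (h.u (mem_range.mp hi)) (hRi i) ha (l0 i))
    have h2 : ∀ i ∈ range J, lam w2 (gl (lm i) (R i) a (I i)) ≤
        Real.exp (EU a (I i) + Bd2 c * Real.exp (-(R i:ℝ))) := fun i hi =>
      gl_up2 (hpr i) (h.v i (mem_range.mp hi)) (h.u (mem_range.mp hi)) (hRi i).1 ha (l0 i) (l1 i)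
    refine (prod_le_prod h1 h2).trans ?_
    rw [← Real.exp_sum]
    exact Real.exp_le_exp.mpr hup

end

end Pool.Agent.TH971.N4_W2
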